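import Pool.Agent.R168.TriOct

/-!
The regular pentagon of width 1 does not minimise the largest inradius of an inscribed triangle
among plane convex bodies of width 1.  The witness is (a multiple of) an explicit octagon.
-/

namespace Pool.Agent.Results.MP_cd4638_co.PentagonBeaten

open Set Metric
open scoped Pointwise

/-- the Euclidean plane -/
abbrev E := EuclideanSpace ℝ (Fin 2)

/-- width: the least length of the projection of `F` to a line; the projection to the line
spanned by the unit vector `u` is an interval of length `sup - inf` of `⟨u, x⟩` over `x ∈ F` -/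
noncomputable def width (F : Set E) : ℝ :=
  sInf {w | ∃ u : E, ‖u‖ = 1 ∧
    w = sSup ((fun x => inner ℝ u x) '' F) - sInf ((fun x => inner ℝ u x) '' F)}

/-- inradius: the largest radius of a closed disk contained in `K` -/
noncomputable def inradius (K : Set E) : ℝ :=
  sSup {r | 0 ≤ r ∧ ∃ c : E, closedBall c r ⊆ K}

/-- `a F`: the largest inradius of a triangle contained in `F` -/
noncomputable def a (F : Set E) : ℝ :=
  sSup {r | ∃ A B C : E, AffineIndependent ℝ ![A, B, C] ∧ convexHull ℝ {A, B, C} ⊆ F ∧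
    r = inradius (convexHull ℝ {A, B, C})}

/-- the regular pentagon of circumradius `1 / (1 + cos (π / 5))` centred at the origin; the
distance from a vertex to the opposite side is 1 -/
noncomputable def pentagon : Set E :=
  convexHull ℝ (range fun k : Fin 5 =>
    (!₂[(1 / (1 + Real.cos (Real.pi / 5))) * Real.cos (2 * Real.pi * (k : ℝ) / 5),
      (1 / (1 + Real.cos (Real.pi / 5))) * Real.sin (2 * Real.pi * (k : ℝ) / 5)] : E))

open Pool.Agent.R168.TriGeo (area2 Oct norm_sq2 norm_eq_nrm inner_eq)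
open Pool.Agent.R168.TriBB (D)

/-! ### affine independence and area -/

theorem area2_ne {A B C : E} (h : AffineIndependent ℝ ![A, B, C]) : area2 A B C ≠ 0 := by
  intro h0
  have hinj := h.injective
  have hBC : B ≠ C := by
    intro hbc
    have : (1 : Fin 3) = 2 := hinj (by simp [hbc])
    exact absurd this (by decide)
  rw [affineIndependent_iff] at h
  -- choose a point off the line BC
  obtain ⟨x, hx⟩ : ∃ x : E, area2 B C x ≠ 0 := by
    by_contra hcon
    push Not at hcon
    apply hBC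
    have h1 := hcon !₂[B 0 + 1, B 1]
    have h2 := hcon !₂[B 0, B 1 + 1]
    simp only [area2, D, Matrix.cons_val_zero, Matrix.cons_val_one] at h1 h2
    ext i
    fin_cases i
    · simp only [Fin.zero_eta]; linarith
    · simp only [Fin.mk_one]; linarith
  have := h Finset.univ ![area2 B C x, area2 C A x, area2 A B x] (by
      simp only [Fin.sum_univ_three, Matrix.cons_val_zero, Matrix.cons_val_one,
        Matrix.cons_val_two, Matrix.head_cons, Matrix.tail_cons]
      have := Pool.Agent.R168.TriGeo.area2_split A B C x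
      linarith) (by
      simp only [Fin.sum_univ_three, Matrix.cons_val_zero, Matrix.cons_val_one,
        Matrix.cons_val_two, Matrix.head_cons, Matrix.tail_cons]
      ext i
      have key : area2 B C x * A i + area2 C A x * B i + area2 A B x * C i
          = area2 A B C * x i := by
        fin_cases i
        · simp only [area2, D, Fin.zero_eta]; ring
        · simp only [area2, D, Fin.mk_one]; ring
      simp only [PiLp.add_apply, PiLp.smul_apply, smul_eq_mul, PiLp.zero_apply]
      rw [key, h0, zero_mul]) 0 (Finset.mem_univ _)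
  simp at this
  exact hx this

theorem indep_of_area2 {A B C : E} (h : area2 A B C ≠ 0) : AffineIndependent ℝ ![A, B, C] := by
  rw [affineIndependent_iff_of_fintype]
  intro w hw0 hw1
  have hw0' : w 0 + w 1 + w 2 = 0 := by rw [Fin.sum_univ_three] at hw0; exact hw0
  rw [Finset.weightedVSub_eq_weightedVSubOfPoint_of_sum_eq_zero _ _ _ hw0 (0 : E)] at hw1
  simp only [Finset.weightedVSubOfPoint_apply, vsub_eq_sub, sub_zero, Fin.sum_univ_three,
    Matrix.cons_val_zero, Matrix.cons_val_one, Matrix.cons_val_two, Matrix.head_cons,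
    Matrix.tail_cons] at hw1
  have e0 : w 0 * A 0 + w 1 * B 0 + w 2 * C 0 = 0 := by
    have := congrArg (fun v : E => v 0) hw1
    simpa using this
  have e1 : w 0 * A 1 + w 1 * B 1 + w 2 * C 1 = 0 := by
    have := congrArg (fun v : E => v 1) hw1
    simpa using this
  have k0 : w 0 * area2 A B C = 0 := by
    simp only [area2, D]
    have : w 2 = - w 0 - w 1 := by linarith
    rw [this] at e0 e1
    linear_combination (B 1 - C 1) * e0 - (B 0 - C 0) * e1
  have k1 : w 1 * area2 A B C = 0 := by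
    simp only [area2, D]
    have : w 0 = - w 1 - w 2 := by linarith
    rw [this] at e0 e1
    linear_combination (C 1 - A 1) * e0 - (C 0 - A 0) * e1
  have k2 : w 2 * area2 A B C = 0 := by
    simp only [area2, D]
    have : w 1 = - w 0 - w 2 := by linarith
    rw [this] at e0 e1
    linear_combination (A 1 - B 1) * e0 - (A 0 - B 0) * e1
  intro i
  fin_cases i
  · exact (mul_eq_zero.1 k0).resolve_right h
  · exact (mul_eq_zero.1 k1).resolve_right h
  · exact (mul_eq_zero.1 k2).resolve_right h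

/-! ### scaling -/

theorem image_smul_set (u : E) (s : ℝ) (F : Set E) :
    (fun x => inner ℝ u x) '' (s • F) = s • ((fun x => inner ℝ u x) '' F) := by
  ext y
  constructor
  · rintro ⟨x, ⟨z, hz, rfl⟩, rfl⟩
    exact ⟨inner ℝ u z, ⟨z, hz, rfl⟩, by simp [inner_smul_right]⟩
  · rintro ⟨x, ⟨z, hz, rfl⟩, rfl⟩
    exact ⟨s • z, ⟨z, hz, rfl⟩, by simp [inner_smul_right]⟩

theorem width_smul {s : ℝ} (hs : 0 ≤ s) (F : Set E) : width (s • F) = s * width F := by
  unfold width
  rw [← smul_eq_mul, ← Real.sInf_smul_of_nonneg hs]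
  congr 1
  ext w
  constructor
  · rintro ⟨u, hu, rfl⟩
    refine ⟨_, ⟨u, hu, rfl⟩, ?_⟩
    rw [image_smul_set, Real.sSup_smul_of_nonneg hs, Real.sInf_smul_of_nonneg hs]
    simp only [smul_eq_mul]; ring
  · rintro ⟨_, ⟨u, hu, rfl⟩, rfl⟩
    refine ⟨u, hu, ?_⟩
    rw [image_smul_set, Real.sSup_smul_of_nonneg hs, Real.sInf_smul_of_nonneg hs]
    simp only [smul_eq_mul]; ring

/-- lower bound for the width -/
theorem one_le_width {F : Set E} (hF : IsCompact F)
    (h : ∀ u : E, ‖u‖ = 1 → ∃ p ∈ F, ∃ q ∈ F, 1 ≤ inner ℝ u p - inner ℝ u q) :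
    1 ≤ width F := by
  unfold width
  apply le_csInf
  · exact ⟨_, EuclideanSpace.single 0 1, by simp, rfl⟩
  · rintro w ⟨u, hu, rfl⟩
    obtain ⟨p, hp, q, hq, hpq⟩ := h u hu
    have hc : IsCompact ((fun x => inner ℝ u x) '' F) := hF.image (by fun_prop)
    have h1 : inner ℝ u p ≤ sSup ((fun x => inner ℝ u x) '' F) :=
      le_csSup hc.bddAbove ⟨p, hp, rfl⟩
    have h2 : sInf ((fun x => inner ℝ u x) '' F) ≤ inner ℝ u q :=
      csInf_le hc.bddBelow ⟨q, hq, rfl⟩
    linarith

theorem width_Oct : 1 ≤ width Oct := by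
  apply one_le_width Pool.Agent.R168.TriGeo.compact_Oct
  intro u hu
  obtain ⟨p, hp, q, hq, h⟩ := Pool.Agent.R168.TriGeo.width_all u
  exact ⟨p, hp, q, hq, by rw [hu] at h; exact h⟩

/-- upper bound for `a` of scaled copies of the octagon -/
theorem a_Oct {s : ℝ} (h0 : 0 < s) (h1 : s ≤ 1) : a (s • Oct) ≤ 61 / 250 := by
  unfold a
  apply Real.sSup_le _ (by norm_num)
  rintro r ⟨A, B, C, hind, hsub, rfl⟩
  apply Real.sSup_le _ (by norm_num)
  rintro r ⟨hr, c, hc⟩
  have hD := area2_ne hind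
  have hs : s⁻¹ ≠ 0 := by positivity
  have e : ({s⁻¹ • A, s⁻¹ • B, s⁻¹ • C} : Set E) = s⁻¹ • ({A, B, C} : Set E) := by
    rw [Set.smul_set_insert, Set.smul_set_insert, Set.smul_set_singleton]
  have k := Pool.Agent.R168.TriGeo.Oct_inradius (A := s⁻¹ • A) (B := s⁻¹ • B) (C := s⁻¹ • C)
    (c := s⁻¹ • c) (r := s⁻¹ * r) (by positivity) (by
      have : area2 (s⁻¹ • A) (s⁻¹ • B) (s⁻¹ • C) = s⁻¹^2 * area2 A B C := by
        simp only [area2, PiLp.smul_apply, smul_eq_mul]
        exact Pool.Agent.R168.TriGeo.D_scale _ _ _ _ _ _ _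
      rw [this]
      exact mul_ne_zero (by positivity) hD) (by
      rw [e, convexHull_smul]
      intro x hx
      obtain ⟨y, hy, rfl⟩ := hx
      obtain ⟨z, hz, hzy⟩ := hsub hy
      simp only at hzy ⊢
      rw [← hzy, smul_smul, inv_mul_cancel₀ h0.ne', one_smul]
      exact hz) (by
      rw [e, convexHull_smul]
      intro x hx
      rw [mem_closedBall, dist_eq_norm] at hx
      refine ⟨s • x, hc ?_, ?_⟩
      · rw [mem_closedBall, dist_eq_norm]
        have : s • x - c = s • (x - s⁻¹ • c) := by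
          rw [smul_sub, smul_smul, mul_inv_cancel₀ h0.ne', one_smul]
        rw [this, norm_smul, Real.norm_eq_abs, abs_of_pos h0]
        calc s * ‖x - s⁻¹ • c‖ ≤ s * (s⁻¹ * r) := by gcongr
          _ = r := by field_simp
      · simp only
        rw [smul_smul, inv_mul_cancel₀ h0.ne', one_smul])
  have : r = s * (s⁻¹ * r) := by field_simp
  rw [this]
  nlinarith

/-! ### the pentagon -/

/-- circumradius -/
noncomputable def rho : ℝ := 1 / (1 + Real.cos (Real.pi / 5))

theorem cos36_pos : 0 < Real.cos (Real.pi / 5) :=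
  Real.cos_pos_of_mem_Ioo ⟨by linarith [Real.pi_pos], by linarith [Real.pi_pos]⟩

theorem rho_pos : 0 < rho := by
  unfold rho
  have := cos36_pos
  positivity

theorem rho_mul : rho * (1 + Real.cos (Real.pi / 5)) = 1 := by
  unfold rho
  have := cos36_pos
  field_simp

/-- vertices, indexed by integers -/
noncomputable def pt (k : ℤ) : E :=
  !₂[rho * Real.cos (2 * Real.pi * (k : ℝ) / 5), rho * Real.sin (2 * Real.pi * (k : ℝ) / 5)]

theorem pt_mem (k : ℤ) : pt k ∈ pentagon := by
  apply subset_convexHull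
  have h1 : 0 ≤ k % 5 := Int.emod_nonneg _ (by norm_num)
  have h2 : k % 5 < 5 := Int.emod_lt_of_pos _ (by norm_num)
  refine ⟨⟨(k % 5).toNat, by omega⟩, ?_⟩
  have h3 : ((k % 5).toNat : ℝ) = ((k % 5 : ℤ) : ℝ) := by
    have : (((k % 5).toNat : ℤ) : ℝ) = ((k % 5 : ℤ) : ℝ) := by rw [Int.toNat_of_nonneg h1]
    exact_mod_cast this
  have h4 : 2 * Real.pi * (k : ℝ) / 5
      = 2 * Real.pi * ((k % 5 : ℤ) : ℝ) / 5 + (k / 5 : ℤ) * (2 * Real.pi) := by
    have : (k : ℝ) = ((k % 5 : ℤ) : ℝ) + 5 * ((k / 5 : ℤ) : ℝ) := by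
      exact_mod_cast (Int.emod_add_mul_ediv k 5).symm
    rw [this]; ring
  have h5 : Real.cos (2 * Real.pi * (k : ℝ) / 5)
      = Real.cos (2 * Real.pi * ((k % 5 : ℤ) : ℝ) / 5) := by
    rw [h4, Real.cos_add_int_mul_two_pi]
  have h6 : Real.sin (2 * Real.pi * (k : ℝ) / 5)
      = Real.sin (2 * Real.pi * ((k % 5 : ℤ) : ℝ) / 5) := by
    rw [h4, Real.sin_add_int_mul_two_pi]
  simp only [pt, rho]
  rw [h5, h6, ← h3]

theorem inner_pt {u : E} {φ : ℝ} (h0 : u 0 = Real.cos φ) (h1 : u 1 = Real.sin φ) (k : ℤ) :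
    inner ℝ u (pt k) = rho * Real.cos (φ - 2 * Real.pi * (k : ℝ) / 5) := by
  rw [inner_eq, Real.cos_sub, h0, h1]
  simp only [pt, Matrix.cons_val_zero, Matrix.cons_val_one]
  ring

theorem width_dir {u : E} {φ : ℝ} (h0 : u 0 = Real.cos φ) (h1 : u 1 = Real.sin φ) (l : ℤ)
    (h : |φ - ((2 * l + 4) * Real.pi / 5 + Real.pi / 10)| ≤ Real.pi / 10) :
    1 ≤ inner ℝ u (pt (l+2)) - inner ℝ u (pt l) := by
  rw [inner_pt h0 h1, inner_pt h0 h1, ← mul_sub, Real.cos_sub_cos]
  have e1 : (φ - 2 * Real.pi * ((l+2 : ℤ) : ℝ) / 5 + (φ - 2 * Real.pi * (l : ℝ) / 5)) / 2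
      = φ - ((2 * l + 4) * Real.pi / 5 + Real.pi / 10) + Real.pi / 2 := by
    push_cast; ring
  have e2 : (φ - 2 * Real.pi * ((l+2 : ℤ) : ℝ) / 5 - (φ - 2 * Real.pi * (l : ℝ) / 5)) / 2
      = - (Real.pi / 2 - Real.pi / 10) := by
    push_cast; ring
  rw [e1, e2, Real.sin_add_pi_div_two, Real.sin_neg, Real.sin_pi_div_two_sub]
  set δ := φ - ((2 * l + 4) * Real.pi / 5 + Real.pi / 10) with hδ
  have hpi := Real.pi_pos
  have h2 : Real.cos (Real.pi / 10) ≤ Real.cos δ := by
    rw [← Real.cos_abs δ]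
    exact Real.cos_le_cos_of_nonneg_of_le_pi (abs_nonneg _) (by linarith) h
  have h3 : 0 < Real.cos (Real.pi / 10) :=
    Real.cos_pos_of_mem_Ioo ⟨by linarith, by linarith⟩
  have h4 : 1 + Real.cos (Real.pi / 5) = 2 * Real.cos (Real.pi / 10)^2 := by
    have : Real.pi / 5 = 2 * (Real.pi / 10) := by ring
    rw [this, Real.cos_two_mul]; ring
  have h5 := rho_mul
  rw [h4] at h5
  have h6 : rho * (2 * Real.cos (Real.pi / 10)^2) ≤
      rho * (2 * Real.cos (Real.pi / 10) * Real.cos δ) := by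
    apply mul_le_mul_of_nonneg_left _ rho_pos.le
    nlinarith
  linarith

theorem exists_angle {u : E} (hu : ‖u‖ = 1) : ∃ φ : ℝ, u 0 = Real.cos φ ∧ u 1 = Real.sin φ := by
  have h : u 0 ^ 2 + u 1 ^ 2 = 1 := by rw [← norm_sq2, hu]; norm_num
  let z : ℂ := ⟨u 0, u 1⟩
  have hz : ‖z‖ = 1 := by
    have : ‖z‖^2 = 1 := by
      rw [← Complex.normSq_eq_norm_sq, Complex.normSq_apply]
      simp only [z]; linarith
    nlinarith [norm_nonneg z]
  have hz0 : z ≠ 0 := by
    intro h; rw [h] at hz; simp at hz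
  refine ⟨Complex.arg z, ?_, ?_⟩
  · rw [Complex.cos_arg hz0, hz]; simp [z]
  · rw [Complex.sin_arg, hz]; simp [z]

theorem width_pent_dir {u : E} (hu : ‖u‖ = 1) :
    ∃ p ∈ pentagon, ∃ q ∈ pentagon, 1 ≤ inner ℝ u p - inner ℝ u q := by
  obtain ⟨φ, h0, h1⟩ := exists_angle hu
  have hpi := Real.pi_pos
  set m : ℤ := ⌊5 * φ / Real.pi⌋ with hm
  have k1 : (m : ℝ) * Real.pi / 5 ≤ φ := by
    have := Int.floor_le (5 * φ / Real.pi)
    rw [← hm, le_div_iff₀ hpi] at this
    linarith
  have k2 : φ < (m + 1 : ℝ) * Real.pi / 5 := by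
    have := Int.lt_floor_add_one (5 * φ / Real.pi)
    rw [← hm, div_lt_iff₀ hpi] at this
    linarith
  rcases Int.even_or_odd' m with ⟨n, hn | hn⟩
  · refine ⟨_, pt_mem (n - 2 + 2), _, pt_mem (n - 2), width_dir h0 h1 (n-2) ?_⟩
    rw [hn] at k1 k2
    push_cast at k1 k2 ⊢
    rw [abs_le]; constructor <;> linarith
  · have h0' : (-u) 0 = Real.cos (φ + Real.pi) := by
      rw [Real.cos_add_pi, ← h0]; rfl
    have h1' : (-u) 1 = Real.sin (φ + Real.pi) := by
      rw [Real.sin_add_pi, ← h1]; rfl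
    have := width_dir h0' h1' (n+1) (by
      rw [hn] at k1 k2
      push_cast at k1 k2 ⊢
      rw [abs_le]; constructor <;> linarith)
    refine ⟨_, pt_mem (n + 1), _, pt_mem (n + 1 + 2), ?_⟩
    rw [inner_neg_left, inner_neg_left] at this
    linarith

theorem compact_pent : IsCompact pentagon := (Set.finite_range _).isCompact_convexHull (𝕜 := ℝ)

/-- bounds for the vertices in the direction of the first axis -/
theorem vertex_coord (k : Fin 5) :
    - Real.cos (Real.pi / 5) ≤ Real.cos (2 * Real.pi * (k : ℝ) / 5) := by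
  have hc := cos36_pos
  have hpi := Real.pi_pos
  have c72 : 0 < Real.cos (2 * Real.pi / 5) :=
    Real.cos_pos_of_mem_Ioo ⟨by linarith, by linarith⟩
  fin_cases k
  · simp only [Nat.cast_zero, mul_zero, zero_div, Real.cos_zero]
    linarith
  · simp only [Nat.cast_one, mul_one]
    linarith
  · have : 2 * Real.pi * ((2 : ℕ) : ℝ) / 5 = Real.pi - Real.pi / 5 := by push_cast; ring
    change _ ≤ Real.cos (2 * Real.pi * ((2 : ℕ) : ℝ) / 5)
    rw [this, Real.cos_pi_sub]
  · have : 2 * Real.pi * ((3 : ℕ) : ℝ) / 5 = Real.pi / 5 + Real.pi := by push_cast; ring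
    change _ ≤ Real.cos (2 * Real.pi * ((3 : ℕ) : ℝ) / 5)
    rw [this, Real.cos_add_pi]
  · have : 2 * Real.pi * ((4 : ℕ) : ℝ) / 5 = 2 * Real.pi - 2 * Real.pi / 5 := by push_cast; ring
    change _ ≤ Real.cos (2 * Real.pi * ((4 : ℕ) : ℝ) / 5)
    rw [this, Real.cos_two_pi_sub]
    linarith

theorem pent_strip {x : E} (hx : x ∈ pentagon) :
    -(rho * Real.cos (Real.pi / 5)) ≤ x 0 ∧ x 0 ≤ rho := by
  have hconv : Convex ℝ {x : E | -(rho * Real.cos (Real.pi / 5)) ≤ x 0 ∧ x 0 ≤ rho} := by
    intro x hx y hy s t hs ht hst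
    simp only [mem_ofPred_eq, PiLp.add_apply, PiLp.smul_apply, smul_eq_mul] at *
    have e : t = 1 - s := by linarith
    subst e
    constructor <;> nlinarith
  have : pentagon ⊆ {x : E | -(rho * Real.cos (Real.pi / 5)) ≤ x 0 ∧ x 0 ≤ rho} := by
    apply convexHull_min _ hconv
    rintro _ ⟨k, rfl⟩
    simp only [mem_ofPred_eq, Matrix.cons_val_zero]
    have h1 := vertex_coord k
    have h2 := Real.cos_le_one (2 * Real.pi * (k : ℝ) / 5)
    have h3 := rho_pos
    change -(rho * _) ≤ rho * _ ∧ rho * _ ≤ rho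
    constructor <;> nlinarith
  exact this hx

theorem width_pentagon : width pentagon = 1 := by
  apply le_antisymm
  · have hmem : ∃ u : E, ‖u‖ = 1 ∧ ∀ x : E, inner ℝ u x = x 0 := by
      refine ⟨EuclideanSpace.single 0 1, by simp, fun x => ?_⟩
      rw [inner_eq]; simp
    obtain ⟨u, hu, hux⟩ := hmem
    have hle : width pentagon ≤ sSup ((fun x => inner ℝ u x) '' pentagon)
        - sInf ((fun x => inner ℝ u x) '' pentagon) := by
      unfold width
      apply csInf_le
      · refine ⟨0, ?_⟩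
        rintro w ⟨v, hv, rfl⟩
        obtain ⟨p, hp, q, hq, hpq⟩ := width_pent_dir hv
        have hc : IsCompact ((fun x => inner ℝ v x) '' pentagon) :=
          compact_pent.image (by fun_prop)
        have h1 : inner ℝ v p ≤ sSup ((fun x => inner ℝ v x) '' pentagon) :=
          le_csSup hc.bddAbove ⟨p, hp, rfl⟩
        have h2 : sInf ((fun x => inner ℝ v x) '' pentagon) ≤ inner ℝ v q :=
          csInf_le hc.bddBelow ⟨q, hq, rfl⟩
        linarith
      · exact ⟨u, hu, rfl⟩
    have hne : ((fun x => inner ℝ u x) '' pentagon).Nonempty := ⟨_, pt 0, pt_mem 0, rfl⟩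
    have h1 : sSup ((fun x => inner ℝ u x) '' pentagon) ≤ rho := by
      apply csSup_le hne
      rintro _ ⟨x, hx, rfl⟩
      simp only [hux]; exact (pent_strip hx).2
    have h2 : -(rho * Real.cos (Real.pi / 5)) ≤ sInf ((fun x => inner ℝ u x) '' pentagon) := by
      apply le_csInf hne
      rintro _ ⟨x, hx, rfl⟩
      simp only [hux]; exact (pent_strip hx).1
    have := rho_mul
    linarith
  · exact one_le_width compact_pent fun u hu => width_pent_dir hu

/-! ### a triangle in the pentagon -/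

theorem pent_norm {x : E} (hx : x ∈ pentagon) : ‖x‖ ≤ 1 := by
  have : pentagon ⊆ closedBall (0 : E) 1 := by
    apply convexHull_min _ (convex_closedBall _ _)
    rintro _ ⟨k, rfl⟩
    rw [mem_closedBall, dist_zero_right]
    have h1 : rho ≤ 1 := by
      have := rho_mul
      have := cos36_pos
      have := rho_pos
      nlinarith
    have h2 := rho_pos
    have : ‖(!₂[rho * Real.cos (2 * Real.pi * (k : ℝ) / 5),
        rho * Real.sin (2 * Real.pi * (k : ℝ) / 5)] : E)‖^2 = rho^2 := by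
      rw [norm_sq2]
      simp only [Matrix.cons_val_zero, Matrix.cons_val_one]
      have := Real.sin_sq_add_cos_sq (2 * Real.pi * (k : ℝ) / 5)
      nlinarith
    change ‖(!₂[rho * Real.cos (2 * Real.pi * (k : ℝ) / 5),
        rho * Real.sin (2 * Real.pi * (k : ℝ) / 5)] : E)‖ ≤ 1
    nlinarith [norm_nonneg (!₂[rho * Real.cos (2 * Real.pi * (k : ℝ) / 5),
        rho * Real.sin (2 * Real.pi * (k : ℝ) / 5)] : E)]
  have := this hx
  rwa [mem_closedBall, dist_zero_right] at this

theorem radius_le {K : Set E} (hK : K ⊆ pentagon) {c : E} {r : ℝ} (hr : 0 ≤ r)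
    (h : closedBall c r ⊆ K) : r ≤ 1 := by
  let e : E := EuclideanSpace.single 0 r
  have he : ‖e‖ = r := by simp [e, abs_of_nonneg hr]
  have h1 := pent_norm (hK (h (show c + e ∈ closedBall c r by
    rw [mem_closedBall, dist_eq_norm]; simp [he])))
  have h2 := pent_norm (hK (h (show c - e ∈ closedBall c r by
    rw [mem_closedBall, dist_eq_norm]; simp [he])))
  have h3 : ‖(c + e) - (c - e)‖ ≤ ‖c + e‖ + ‖c - e‖ := norm_sub_le _ _
  have h4 : (c + e) - (c - e) = (2:ℝ) • e := by rw [two_smul]; abel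
  rw [h4, norm_smul, he] at h3
  simp at h3
  linarith

theorem le_a_pentagon {A B C c : E} {r : ℝ} (hr : 0 ≤ r) (hD : area2 A B C ≠ 0)
    (hA : A ∈ pentagon) (hB : B ∈ pentagon) (hC : C ∈ pentagon)
    (h : closedBall c r ⊆ convexHull ℝ {A, B, C}) : r ≤ a pentagon := by
  have hsub : convexHull ℝ {A, B, C} ⊆ pentagon := by
    apply convexHull_min _ (convex_convexHull _ _)
    rintro x (rfl | rfl | rfl) <;> assumption
  have h1 : r ≤ inradius (convexHull ℝ {A, B, C}) := by
    apply le_csSup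
    · refine ⟨1, ?_⟩
      rintro s ⟨hs, d, hd⟩
      exact radius_le hsub hs hd
    · exact ⟨hr, c, h⟩
  refine h1.trans ?_
  apply le_csSup
  · refine ⟨1, ?_⟩
    rintro s ⟨A', B', C', _, hsub', rfl⟩
    apply Real.sSup_le _ (by norm_num)
    rintro s ⟨hs, d, hd⟩
    exact radius_le hsub' hs hd
  · exact ⟨A, B, C, indep_of_area2 hD, hsub, rfl⟩

theorem a_pentagon_gt : 61 / 250 < a pentagon := by
  set w : ℝ := Real.sqrt 5 with hw
  have hw2 : w^2 = 5 := Real.sq_sqrt (by norm_num)
  have hw0 : 0 ≤ w := Real.sqrt_nonneg _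
  have hw3 : 2.236067977 ≤ w := by
    rw [hw]; apply Real.le_sqrt_of_sq_le; norm_num
  have hw4 : w ≤ 2.236067978 := by
    rw [hw]; apply (Real.sqrt_le_left (by norm_num)).2; norm_num
  have hc : Real.cos (Real.pi / 5) = (1 + w) / 4 := by rw [Real.cos_pi_div_five]
  have hc2 : Real.cos (2 * (Real.pi / 5)) = (w - 1) / 4 := by
    rw [Real.cos_two_mul, hc]
    nlinarith
  have hrho : rho = (5 - w) / 5 := by
    unfold rho
    rw [hc]
    rw [div_eq_div_iff (by positivity) (by norm_num)]
    nlinarith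
  set s : ℝ := Real.sin (Real.pi / 5) with hs
  have hs0 : 0 < s := Real.sin_pos_of_pos_of_lt_pi (by positivity) (by linarith [Real.pi_pos])
  have hs2 : s^2 = (5 - w) / 8 := by
    have := Real.sin_sq_add_cos_sq (Real.pi / 5)
    rw [hc] at this
    nlinarith
  have hss : Real.sin (2 * (Real.pi / 5)) = 2 * s * ((1 + w) / 4) := by
    rw [Real.sin_two_mul, hc]
  -- coordinates of the vertices
  have p0 : pt 0 = !₂[rho, 0] := by simp [pt]
  have p1 : pt 1 = !₂[rho * ((w - 1)/4), rho * (2 * s * ((1+w)/4))] := by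
    have : 2 * Real.pi * ((1:ℤ):ℝ) / 5 = 2 * (Real.pi / 5) := by push_cast; ring
    simp only [pt]; rw [this, hc2, hss]
  have p2 : pt 2 = !₂[- (rho * ((1 + w)/4)), rho * s] := by
    have : 2 * Real.pi * ((2:ℤ):ℝ) / 5 = Real.pi - Real.pi / 5 := by push_cast; ring
    simp only [pt]; rw [this, Real.cos_pi_sub, Real.sin_pi_sub, hc, mul_neg]
  have p3 : pt (-2) = !₂[- (rho * ((1 + w)/4)), - (rho * s)] := by
    have : 2 * Real.pi * ((-2:ℤ):ℝ) / 5 = -(Real.pi - Real.pi / 5) := by push_cast; ring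
    simp only [pt]; rw [this, Real.cos_neg, Real.sin_neg, Real.cos_pi_sub, Real.sin_pi_sub, hc,
      mul_neg, mul_neg]
  have p4 : pt (-1) = !₂[rho * ((w - 1)/4), - (rho * (2 * s * ((1+w)/4)))] := by
    have : 2 * Real.pi * ((-1:ℤ):ℝ) / 5 = -(2 * (Real.pi / 5)) := by push_cast; ring
    simp only [pt]; rw [this, Real.cos_neg, Real.sin_neg, hc2, hss, mul_neg]
  -- the triangle
  set h : ℝ := (25 - 3 * w) / 22 with hh
  set y : ℝ := rho * s * (19 + 3 * w) / 22 with hy
  have hrp := rho_pos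
  have hy0 : 0 < y := by positivity
  have hy2 : y^2 = 89/242 - w/10 := by
    have : y^2 = rho^2 * s^2 * (19+3*w)^2/484 := by rw [hy]; ring
    rw [this, hs2, hrho]
    have h3 : w^3 = 5*w := by rw [show w^3 = w^2*w by ring, hw2]
    have h4 : w^4 = 25 := by rw [show w^4 = w^2*w^2 by ring, hw2]; norm_num
    have h5 : w^5 = 25*w := by rw [show w^5 = w^2*w^2*w by ring, hw2]; ring
    ring_nf
    rw [h3, h4, h5, hw2]
    ring
  have hh0 : 0.8 < h := by rw [hh]; linarith
  let A : E := !₂[rho, 0]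
  let B : E := !₂[rho - h, y]
  let C : E := !₂[rho - h, -y]
  let c : E := !₂[rho - h + 0.24401, 0]
  have hA : A ∈ pentagon := by have := pt_mem 0; rwa [p0] at this
  have hconvP : Convex ℝ pentagon := convex_convexHull _ _
  have hB : B ∈ pentagon := by
    have := hconvP (pt_mem 1) (pt_mem 2) (a := 3/11) (b := 8/11) (by norm_num) (by norm_num)
      (by norm_num)
    rw [p1, p2] at this
    convert this using 1
    ext i
    fin_cases i
    · simp only [B, Fin.zero_eta, Matrix.cons_val_zero, PiLp.add_apply, PiLp.smul_apply,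
        smul_eq_mul]
      rw [hh, hrho]; linear_combination (-1/44) * hw2
    · simp only [B, Fin.mk_one, Matrix.cons_val_one, Matrix.cons_val_fin_one, PiLp.add_apply,
        PiLp.smul_apply, smul_eq_mul]
      rw [hy]; ring
  have hC : C ∈ pentagon := by
    have := hconvP (pt_mem (-1)) (pt_mem (-2)) (a := 3/11) (b := 8/11) (by norm_num)
      (by norm_num) (by norm_num)
    rw [p3, p4] at this
    convert this using 1
    ext i
    fin_cases i
    · simp only [C, Fin.zero_eta, Matrix.cons_val_zero, PiLp.add_apply, PiLp.smul_apply,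
        smul_eq_mul]
      rw [hh, hrho]; linear_combination (-1/44) * hw2
    · simp only [C, Fin.mk_one, Matrix.cons_val_one, Matrix.cons_val_fin_one, PiLp.add_apply,
        PiLp.smul_apply, smul_eq_mul]
      rw [hy]; ring
  have harea : area2 A B C = 2 * h * y := by
    simp only [area2, D, A, B, C, Matrix.cons_val_zero, Matrix.cons_val_one]; ring
  have hareapos : 0 < area2 A B C := by rw [harea]; positivity
  have key : (0.24401:ℝ) * Real.sqrt (h^2 + y^2) ≤ y * (h - 0.24401) := by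
    have h1 : (0.24401:ℝ)^2 * (h^2+y^2) ≤ (y * (h - 0.24401))^2 := by
      rw [mul_pow, hy2, hh]
      nlinarith [hw2, hw3, hw4, mul_nonneg hw0 (sub_nonneg.2 hw3)]
    have h2 : 0 ≤ y * (h - 0.24401) := mul_nonneg hy0.le (by linarith)
    have h3 : ((0.24401:ℝ) * Real.sqrt (h^2 + y^2))^2 ≤ (y * (h - 0.24401))^2 := by
      rw [mul_pow, Real.sq_sqrt (by positivity)]; exact h1
    exact abs_le_of_sq_le_sq' h3 h2 |>.2
  have nAB : ‖B - A‖ = Real.sqrt (h^2 + y^2) := by
    rw [Pool.Agent.R168.TriGeo.norm_sub_eq]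
    simp only [A, B, Matrix.cons_val_zero, Matrix.cons_val_one, Pool.Agent.R168.TriBB.nrm]
    congr 1; ring
  have nCA : ‖A - C‖ = Real.sqrt (h^2 + y^2) := by
    rw [Pool.Agent.R168.TriGeo.norm_sub_eq]
    simp only [A, C, Matrix.cons_val_zero, Matrix.cons_val_one, Pool.Agent.R168.TriBB.nrm]
    congr 1; ring
  have nBC : ‖C - B‖ = 2 * y := by
    rw [Pool.Agent.R168.TriGeo.norm_sub_eq]
    simp only [B, C, Matrix.cons_val_zero, Matrix.cons_val_one, Pool.Agent.R168.TriBB.nrm]
    rw [show (rho - h - (rho - h))^2 + (-y - y)^2 = (2*y)^2 by ring, Real.sqrt_sq (by positivity)]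
  have hball : closedBall c 0.24401 ⊆ convexHull ℝ {A, B, C} := by
    apply Pool.Agent.R168.TriGeo.ball_subset_tri hareapos
    · rw [nAB]
      have : area2 A B c = y * (h - 0.24401) := by
        simp only [area2, D, A, B, c, Matrix.cons_val_zero, Matrix.cons_val_one]; ring
      rw [this]; exact key
    · rw [nBC]
      have : area2 B C c = 2 * y * 0.24401 := by
        simp only [area2, D, B, C, c, Matrix.cons_val_zero, Matrix.cons_val_one]; ring
      rw [this]; linarith
    · rw [nCA]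
      have : area2 C A c = y * (h - 0.24401) := by
        simp only [area2, D, A, C, c, Matrix.cons_val_zero, Matrix.cons_val_one]; ring
      rw [this]; exact key
  have := le_a_pentagon (by norm_num) hareapos.ne' hA hB hC hball
  linarith

/-- The regular pentagon of width 1 is not a minimiser of `a` among convex bodies of width 1. -/
theorem result :
    width pentagon = 1 ∧
    (∃ F : Set E, IsCompact F ∧ Convex ℝ F ∧ width F = 1 ∧ a F < a pentagon) ∧
    sInf {x | ∃ F : Set E, IsCompact F ∧ Convex ℝ F ∧ width F = 1 ∧ x = a F} < a pentagon := by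
  have hW := width_Oct
  have hWpos : 0 < width Oct := by linarith
  have hex : ∃ F : Set E, IsCompact F ∧ Convex ℝ F ∧ width F = 1 ∧ a F < a pentagon := by
    refine ⟨(width Oct)⁻¹ • Oct, ?_, ?_, ?_, ?_⟩
    · exact Pool.Agent.R168.TriGeo.compact_Oct.smul _
    · exact Pool.Agent.R168.TriGeo.convex_Oct.smul _
    · rw [width_smul (by positivity)]
      field_simp
    · exact lt_of_le_of_lt (a_Oct (by positivity) (inv_le_one_of_one_le₀ hW)) a_pentagon_gt
  refine ⟨width_pentagon, hex, ?_⟩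
  obtain ⟨F, h1, h2, h3, h4⟩ := hex
  refine lt_of_le_of_lt ?_ h4
  apply csInf_le
  · refine ⟨0, ?_⟩
    rintro x ⟨G, _, _, _, rfl⟩
    apply Real.sSup_nonneg
    rintro r ⟨A, B, C, _, _, rfl⟩
    apply Real.sSup_nonneg
    rintro r ⟨hr, _⟩
    exact hr
  · exact ⟨F, h1, h2, h3, rfl⟩

end Pool.Agent.Results.MP_cd4638_co.PentagonBeaten
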